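import Pool.Agent.V5helper75.IndProd.Main1

/-!
# The product inequality for the large inductive dimension with a paracompact sigma-locally compact factor

If `X × Y` is normal (Hausdorff), `X` is paracompact and σ-locally compact, and both `X` and `Y` satisfy
the finite sum theorem for `Ind`, then `Ind (X × Y) ≤ Ind X + Ind Y`.

Outline of the proof. `X` is the union of closed sets `C i`, `i = 1, 2, …`, each of which is a discrete
union of compact sets `C i t`, with a discrete family of open neighbourhoods `O i t`. A closed set
`M ⊆ X × Y` is good for `k` if near each `C i t × Y` it is contained, locally with respect to a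
continuous map of `Y` to a metric space, in finite unions of closed rectangles `P × Q` with
`Ind P + Ind Q ≤ k`. We show `Ind M ≤ k` by induction on `k`.
(1) A finite union of such rectangles is contained in the union of the sets `P a × Q (k - a)`, for
increasing sequences of closed sets with `Ind (P a) ≤ a`, `Ind (Q b) ≤ b`, and one may choose partitions
in the sets `P a × Q (k - a)` independently, and glue them outside of the union `D` of the sets
`P a × Q (k - 1 - a)`.
(2) Near `L × Y`, `L` compact, a separating function `f` is locally, with respect to the map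
`y ↦ f (·, y)` of `Y` to the metric space `C(L)`, close to a function of `x`; so one finds partitions near `L × Y`
with good boundaries.
(3) The partitions near the sets `C i × Y` are glued by a recursion, in which the partition
between the `j`-th pair of sets is `R i j` in the `i`-th open set, `i > j` minimal, and the `i`-th open set, a
neighbourhood of `C i × Y`, is again given by the partition between the `i`-th pair; so all boundaries are
locally contained in finite unions of boundaries of the sets `R i j`.
-/

open Set Topology

namespace Pool.Agent.Results.MP_bd525c_gt.SigmaLocallyCompactFactor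

open Pool.Agent.V5helper75.IndProd

universe u v

/-- `X` is the union of countably many closed locally compact subspaces. -/
def SigmaLocallyCompact (X : Type u) [TopologicalSpace X] : Prop :=
  ∃ F : ℕ → Set X, (∀ i, IsClosed (F i)) ∧ (∀ i, LocallyCompactSpace (F i)) ∧ ⋃ i, F i = univ

/-- **Answer to Q1.** Let `X × Y` be normal (Hausdorff), `X` and `Y` not both empty, let both `X` and `Y`
satisfy the finite sum theorem for `Ind`, and let `X` be paracompact (Hausdorff) and σ-locally compact. Then
`Ind (X × Y) ≤ Ind X + Ind Y`. -/
theorem result (X : Type u) (Y : Type v) [TopologicalSpace X] [TopologicalSpace Y]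
    [T4Space (X × Y)] (hne : Nonempty X ∨ Nonempty Y) (hX : FiniteSumTheorem X)
    (hY : FiniteSumTheorem Y) [T2Space X] [ParacompactSpace X] (hσ : SigmaLocallyCompact X) :
    Ind (X × Y) ≤ Ind X + Ind Y := by
  classical
  by_cases h1 : ∃ n, IndLT n X
  swap
  · have : Ind X = ⊤ := by unfold Ind; rw [dif_neg h1]
    rw [this]; simp
  by_cases h2 : ∃ n, IndLT n Y
  swap
  · have : Ind Y = ⊤ := by unfold Ind; rw [dif_neg h2]
    rw [this]; simp
  have e1 : Ind X = (((Nat.find h1 : ℤ) - 1 : ℤ) : WithTop ℤ) := by unfold Ind; rw [dif_pos h1]
  have e2 : Ind Y = (((Nat.find h2 : ℤ) - 1 : ℤ) : WithTop ℤ) := by unfold Ind; rw [dif_pos h2]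
  have s1 := Nat.find_spec h1
  have s2 := Nat.find_spec h2
  generalize Nat.find h1 = n at e1 s1
  generalize Nat.find h2 = m at e2 s2
  rw [e1, e2, ← WithTop.coe_add]
  rcases n with _ | n
  · have hXe : IsEmpty X := s1
    have hYn : Nonempty Y := hne.resolve_left (by simpa using hXe)
    have hm : m ≠ 0 := by
      rintro rfl
      exact (not_isEmpty_iff.2 hYn) s2
    have h3 : IndLT 0 (X × Y) := (inferInstance : IsEmpty (X × Y))
    refine (ind_le_iff.2 h3).trans ?_
    rw [WithTop.coe_le_coe]
    push_cast
    omega
  rcases m with _ | m
  · have hYe : IsEmpty Y := s2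
    have h3 : IndLT 0 (X × Y) := (inferInstance : IsEmpty (X × Y))
    refine (ind_le_iff.2 h3).trans ?_
    rw [WithTop.coe_le_coe]
    push_cast
    omega
  · obtain ⟨F, hF1, hF2, hF3⟩ := hσ
    obtain ⟨C, O, hC, hO, hCO, hlf, hdisj, hcov⟩ := exists_centers F hF1 hF2 hF3
    have h3 : IndLT (n + m + 1) (X × Y) := by
      refine indLT_of_centers hX hY hC hO hCO hlf hdisj hcov (n + m + 1) (X × Y) id
        IsClosedEmbedding.id ?_
      intro i t
      refine ⟨univ, isOpen_univ, fun _ _ => trivial, ?_⟩
      have h4 := fr_rect (X := X) (Y := Y) (a := n) (b := m) rfl isClosed_univ isClosed_univ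
        (s1.homeo (Homeomorph.Set.univ X).symm) (s2.homeo (Homeomorph.Set.univ Y).symm)
      exact (h4.mono (by simp)).yfr
    refine (ind_le_iff.2 h3).trans ?_
    rw [WithTop.coe_le_coe]
    push_cast
    omega

end Pool.Agent.Results.MP_bd525c_gt.SigmaLocallyCompactFactor
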