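import Pool.Agent.V5helper75.IndProd.Main2

/-!
# The product inequality for the large inductive dimension in strongly paracompact products

If `X × Y` is normal (Hausdorff) and strongly paracompact, and both `X` and `Y` satisfy the finite sum
theorem for `Ind`, then `Ind (X × Y) ≤ Ind X + Ind Y`.

Outline of the proof. Call a closed set `M ⊆ X × Y` good for `k` if it is locally contained in finite
unions of closed rectangles `P × Q` with `Ind P + Ind Q ≤ k`. We show `Ind M ≤ k` by induction on `k`.
(1) A finite union of such rectangles is contained in the union of the sets `P a × Q (k - a)`, for increasing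
sequences of closed sets with `Ind (P a) ≤ a`, `Ind (Q b) ≤ b` (finite sum theorem), and the
intersections of two of these rectangles lie in the set `D`, the union of the `P a × Q (k - 1 - a)`. Hence one may
choose partitions by rectangles in each `P a × Q (k - a)` independently, and glue them outside of `D`:
the boundary of the result is contained in `D` and the boundaries of the pieces.
(2) A star-finite refinement splits `M` into open and closed pieces which are covered by countably many
small open rectangles `G 1, G 2, …`. On `G i` one has a partition `R i j` between a smaller rectangle and the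
complement of `G j`, for `j < i`. The sets `R i j` are glued by a recursion, in which the partition
between the `j`-th pair of sets is `R i j` in the `i`-th set of the cover, `i > j` minimal, and the `i`-th set is again
given by the partition between the `i`-th pair; so all boundaries are locally contained in finite unions of boundaries of
the sets `R i j`.
-/

open Set Topology

namespace Pool.Agent.Results.MP_bd525c_gt.StronglyParacompactProducts

open Pool.Agent.V5helper75.IndProd

universe u v

/-- **Answer to Q2.** Let `X × Y` be normal (Hausdorff) and strongly paracompact, `X` and `Y` not both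
empty, and let both `X` and `Y` satisfy the finite sum theorem for `Ind`. Then
`Ind (X × Y) ≤ Ind X + Ind Y`. -/
theorem result (X : Type u) (Y : Type v) [TopologicalSpace X] [TopologicalSpace Y]
    [T4Space (X × Y)] (hne : Nonempty X ∨ Nonempty Y) (hX : FiniteSumTheorem X)
    (hY : FiniteSumTheorem Y) (hZ : StronglyParacompact (X × Y)) :
    Ind (X × Y) ≤ Ind X + Ind Y := by
  classical
  by_cases h1 : ∃ n, IndLT n X
  swap
  · have : Ind X = ⊤ := by unfold Ind; rw [dif_neg h1]
    rw [this]; simp
  by_cases h2 : ∃ n, IndLT n Y
  swap
  · have : Ind Y = ⊤ := by unfold Ind; rw [dif_neg h2]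
    rw [this]; simp
  have e1 : Ind X = (((Nat.find h1 : ℤ) - 1 : ℤ) : WithTop ℤ) := by unfold Ind; rw [dif_pos h1]
  have e2 : Ind Y = (((Nat.find h2 : ℤ) - 1 : ℤ) : WithTop ℤ) := by unfold Ind; rw [dif_pos h2]
  have s1 := Nat.find_spec h1
  have s2 := Nat.find_spec h2
  generalize Nat.find h1 = n at e1 s1
  generalize Nat.find h2 = m at e2 s2
  rw [e1, e2, ← WithTop.coe_add]
  rcases n with _ | n
  · have hXe : IsEmpty X := s1
    have hYn : Nonempty Y := hne.resolve_left (by simpa using hXe)
    have hm : m ≠ 0 := by
      rintro rfl
      exact (not_isEmpty_iff.2 hYn) s2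
    have h3 : IndLT 0 (X × Y) := (inferInstance : IsEmpty (X × Y))
    refine (ind_le_iff.2 h3).trans ?_
    rw [WithTop.coe_le_coe]
    push_cast
    omega
  rcases m with _ | m
  · have hYe : IsEmpty Y := s2
    have h3 : IndLT 0 (X × Y) := (inferInstance : IsEmpty (X × Y))
    refine (ind_le_iff.2 h3).trans ?_
    rw [WithTop.coe_le_coe]
    push_cast
    omega
  · have h3 : IndLT (n + m + 1) (X × Y) := by
      refine indLT_of_local hX hY hZ (n + m + 1) (X × Y) id IsClosedEmbedding.id ?_
      intro z
      refine ⟨univ, isOpen_univ, trivial, ?_⟩
      have h4 := fr_rect (X := X) (Y := Y) (a := n) (b := m) rfl isClosed_univ isClosed_univ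
        (s1.homeo (Homeomorph.Set.univ X).symm) (s2.homeo (Homeomorph.Set.univ Y).symm)
      exact h4.mono (by simp)
    refine (ind_le_iff.2 h3).trans ?_
    rw [WithTop.coe_le_coe]
    push_cast
    omega

end Pool.Agent.Results.MP_bd525c_gt.StronglyParacompactProducts
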